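import Pool.Agent.Q294.Cookie.Final

/-!
# An i.i.d. cookie environment with arbitrarily large drift and zero speed

A measure `μ` on `ℕ → ℝ` is the law of the stack of a site. `annealed μ` is the law of the
environment together with the randomness of the walk: to every site of `ℤ` we attach a stack with
law `μ` and a sequence of uniform random variables, everything independent. `pos ω n` is the
position after `n` steps of the excited random walk started at `0`: at its `(j + 1)`-st visit to
`x` the walk steps to `x + 1` if the `j`-th uniform variable at `x` is smaller than the `j`-th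
cookie at `x` (`j = 0, 1, ...`), hence with probability equal to that cookie, and to `x - 1`
otherwise.
-/

open MeasureTheory ProbabilityTheory Filter Topology

namespace Pool.Agent.Results.MP_204ba2_pr.ZeroSpeed

open Q294.Cookie

/-- For every real `D` there is a law `μ` of cookie stacks, weakly elliptic (a stack has all its
cookies positive with positive probability, and all its cookies smaller than one with positive
probability), with `E ∑ |2 ω - 1| < ∞` and expected drift `δ = E ∑ (2 ω - 1) > D`, such that the
excited random walk in the environment with i.i.d. stacks of law `μ` satisfies `X_n / n → 0`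
almost surely. -/
theorem result (D : ℝ) : ∃ μ : Measure (ℕ → ℝ), IsProbabilityMeasure μ ∧
    (∀ᵐ s ∂μ, ∀ i, s i ∈ Set.Icc (0 : ℝ) 1) ∧
    0 < μ {s | ∀ i, 0 < s i} ∧ 0 < μ {s | ∀ i, s i < 1} ∧
    ∫⁻ s, ∑' i, ENNReal.ofReal |2 * s i - 1| ∂μ < ⊤ ∧
    Integrable (fun s => ∑' i, (2 * s i - 1)) μ ∧
    D < ∫ s, ∑' i, (2 * s i - 1) ∂μ ∧
    ∀ᵐ ω ∂(annealed μ), Tendsto (fun n : ℕ => (pos ω n : ℝ) / n) atTop (𝓝 0) :=
  main D

end Pool.Agent.Results.MP_204ba2_pr.ZeroSpeed
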